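import Pool.Agent.P.MP_72c5f4_co.A.Defs

namespace CSTS

/-- Every permutation of the points that maps the blocks of `B` onto the blocks of `B` is a
translation. -/
def Rigid {n : ℕ} (B : Finset (Finset (ZMod n))) : Prop :=
  ∀ σ : Equiv.Perm (ZMod n), (∀ b : Finset (ZMod n), b ∈ B ↔ b.map σ.toEmbedding ∈ B) →
    ∃ c : ZMod n, ∀ x, σ x = x + c

/-- The number of isomorphism classes of cyclic Steiner triple systems of order `n` whose only
automorphisms are the translations. -/
noncomputable def numRigid (n : ℕ) : ℕ :=
  Nat.card (Quot (fun B C : {B : Finset (Finset (ZMod n)) // IsCyc B ∧ Rigid B} => Iso B.1 C.1))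

end CSTS
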