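import Mathlib

/-! Counting third-point maps that admit a nontrivial automorphism fixing `0`. -/

namespace CSTSR

open Finset

section general

variable {V : Type} [Fintype V] [DecidableEq V]

theorem colour (f : V → Fin 4 → V → V) (hf : ∀ z i, Function.Injective (f z i)) (L : ℕ)
    (hL : 0 < L) (h : Fintype.card V * L * (L ^ 4 - 1) ^ Fintype.card V <
      L ^ (4 * Fintype.card V)) :
    ∃ R : Finset V, L * #R ≤ 4 * Fintype.card V ∧ ∀ z, ∃ x, ∀ i, f z i x ∈ R := by
  let Bad : V × Fin L → Finset (Fin 4 → V → Fin L) := fun p =>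
    univ.filter fun c => ∀ x, (fun i => c i (f p.1 i x)) ≠ fun _ => p.2
  have h1 : ∀ p, #(Bad p) ≤ (L ^ 4 - 1) ^ Fintype.card V := by
    intro p
    have h2 : #(Fintype.piFinset fun _ : V => (univ : Finset (Fin 4 → Fin L)).erase
        fun _ => p.2) = (L ^ 4 - 1) ^ Fintype.card V := by
      rw [Fintype.card_piFinset]
      simp [card_erase_of_mem]
    rw [← h2]
    refine card_le_card_of_injOn (fun c x i => c i (f p.1 i x)) (fun c hc => ?_) ?_
    · rw [mem_coe, Fintype.mem_piFinset]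
      exact fun x => mem_erase.2 ⟨(mem_filter.1 hc).2 x, mem_univ _⟩
    · intro c _ c' _ e
      funext i v
      obtain ⟨x, rfl⟩ := Finite.surjective_of_injective (hf p.1 i) v
      exact congrFun (congrFun e x) i
  have h3 : #(univ.biUnion Bad) < #(univ : Finset (Fin 4 → V → Fin L)) := by
    refine (card_biUnion_le_card_mul _ _ _ fun p _ => h1 p).trans_lt ?_
    simpa [← pow_mul, mul_comm] using h
  obtain ⟨c, -, hc⟩ := exists_mem_notMem_of_card_lt_card h3
  have h4 : ∑ j : Fin L, L * #(univ.filter fun p : Fin 4 × V => c p.1 p.2 = j) ≤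
      ∑ _j : Fin L, 4 * Fintype.card V := by
    rw [← mul_sum, ← card_eq_sum_card_fiberwise (f := fun p : Fin 4 × V => c p.1 p.2)
      (fun _ _ => mem_univ _)]
    simp
  obtain ⟨j, -, hj⟩ := exists_le_of_sum_le ⟨⟨0, hL⟩, mem_univ _⟩ h4
  refine ⟨(univ.filter fun p : Fin 4 × V => c p.1 p.2 = j).image Prod.snd,
    (Nat.mul_le_mul_left _ card_image_le).trans hj, fun z => ?_⟩
  have h5 : c ∉ Bad (z, j) := fun k => hc (mem_biUnion.2 ⟨_, mem_univ _, k⟩)
  simp only [Bad, mem_filter, mem_univ, true_and, not_forall, not_not] at h5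
  obtain ⟨x, hx⟩ := h5
  exact ⟨x, fun i => mem_image.2 ⟨(i, _), mem_filter.2 ⟨mem_univ _, congrFun hx i⟩, rfl⟩⟩

/-- maps to `Option V` that are defined at no more than `m` points -/
def PF (V : Type) [Fintype V] [DecidableEq V] (m : ℕ) : Finset (V → Option V) :=
  univ.filter fun g => #(univ.filter fun x => g x ≠ none) ≤ m

theorem card_PF (hV : 0 < Fintype.card V) (m : ℕ) :
    #(PF V m) ≤ 2 ^ Fintype.card V * Fintype.card V ^ m := by
  set n := Fintype.card V with hn
  have h1 : ∑ g : V → Option V, ∏ x, (if g x ≠ none then 1 else n) = (2 * n) ^ n := by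
    rw [← Fintype.piFinset_univ, ← prod_univ_sum (fun _ : V => univ)
      (fun _ (o : Option V) => if o ≠ none then 1 else n)]
    simp [Fintype.sum_option, ← hn, two_mul]
  have h2 : #(PF V m) * n ^ n ≤ (2 * n) ^ n * n ^ m := by
    rw [← h1, sum_mul, ← smul_eq_mul, ← sum_const]
    refine (sum_le_sum fun g hg => ?_).trans (sum_le_sum_of_subset (subset_univ _))
    rw [prod_ite, prod_const_one, one_mul, prod_const, ← pow_add]
    refine Nat.pow_le_pow_right hV ?_
    have h3 := card_filter_add_card_filter_not (s := (univ : Finset V)) fun x => g x ≠ none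
    have h4 := (mem_filter.1 hg).2
    rw [card_univ] at h3
    omega
  rw [mul_pow, mul_right_comm] at h2
  exact Nat.le_of_mul_le_mul_right h2 (by positivity)

/-- restriction of a map to a finite set -/
def res (R : Finset V) (f : V → V) (x : V) : Option V := if x ∈ R then some (f x) else none

theorem res_mem {R : Finset V} {m : ℕ} (h : #R ≤ m) (f : V → V) : res R f ∈ PF V m := by
  refine mem_filter.2 ⟨mem_univ _, le_trans (card_le_card fun x hx => ?_) h⟩
  by_contra k
  simp [res, k] at hx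

end general

variable {G : Type} [CommRing G] [Fintype G] [DecidableEq G]

/-- `φ` is the third-point map of a cyclic system and `σ` is an automorphism fixing `0` -/
structure Sys (φ σ : G → G) : Prop where
  inv : ∀ d, φ (φ d) = d
  neg : ∀ d, φ (-d) = φ d - d
  zero : φ 0 = 0
  ne : ∀ d, d ≠ 0 → φ d ≠ d
  inj : Function.Injective σ
  s0 : σ 0 = 0
  aut : ∀ x y, σ (x + φ (y - x)) = σ x + φ (σ y - σ x)
  mv : ∃ z, σ z ≠ z

variable {φ σ : G → G}

omit [Fintype G] [DecidableEq G] in
theorem Sys.pinj (h : Sys φ σ) : Function.Injective φ := Function.LeftInverse.injective h.inv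

omit [Fintype G] [DecidableEq G] in
theorem Sys.sub (h : Sys φ σ) (z x : G) : z + φ (x - z) - x = φ (z - x) := by
  rw [← neg_sub x z, h.neg]; ring

omit [Fintype G] [DecidableEq G] in
theorem Sys.third (h : Sys φ σ) (z x : G) : x + φ (z + φ (x - z) - x) = z := by
  rw [h.sub, h.inv]; ring

omit [Fintype G] [DecidableEq G] in
theorem Sys.comm (h : Sys φ σ) (y : G) : σ (φ y) = φ (σ y) := by
  simpa [h.s0] using h.aut 0 y

theorem Sys.fix (h : Sys φ σ) : 2 * #(univ.filter fun x => σ x = x) ≤ Fintype.card G := by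
  obtain ⟨z, hz⟩ := h.mv
  have h1 : #(univ.filter fun x => σ x = x) ≤ #(univ.filter fun x => ¬ σ x = x) := by
    refine card_le_card_of_injOn (fun x => z + φ (x - z)) (fun x hx => ?_) fun x _ y _ e => ?_
    · have hx' : σ x = x := (mem_filter.1 hx).2
      refine mem_filter.2 ⟨mem_univ _, fun k => hz ?_⟩
      have := h.aut x (z + φ (x - z))
      rwa [k, hx', h.third] at this
    · exact sub_left_injective (h.pinj (add_left_cancel e))
  have h3 := card_filter_add_card_filter_not (s := (univ : Finset G)) fun x => σ x = x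
  rw [card_univ] at h3
  omega

theorem Sys.cover (h : Sys φ σ) (L : ℕ) (hL : 0 < L)
    (hc : Fintype.card G * L * (L ^ 4 - 1) ^ Fintype.card G < L ^ (4 * Fintype.card G)) :
    ∃ R : Finset G, L * #R ≤ 4 * Fintype.card G ∧ ∀ z, ∃ x ∈ R, ∃ y ∈ R, y - x ∈ R ∧
      σ y - σ x ∈ R ∧ z = x + φ (y - x) := by
  obtain ⟨R, h1, h2⟩ := colour (fun z => ![fun x => x, fun x => z + φ (x - z), fun x => φ (z - x),
    fun x => φ (σ z - σ x)]) (fun z i => by
      fin_cases i
      · exact fun _ _ e => e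
      · exact fun _ _ e => sub_left_injective (h.pinj (add_left_cancel e))
      · exact fun _ _ e => sub_right_injective (h.pinj e)
      · exact fun _ _ e => h.inj (sub_right_injective (h.pinj e))) L hL hc
  refine ⟨R, h1, fun z => ?_⟩
  obtain ⟨x, hx⟩ := h2 z
  refine ⟨x, hx 0, z + φ (x - z), hx 1, ?_, ?_, (h.third z x).symm⟩
  · rw [h.sub]; exact hx 2
  · have e := h.aut x (z + φ (x - z))
    rw [h.third] at e
    have e2 : σ (z + φ (x - z)) - σ x = φ (σ z - σ x) := by rw [e, add_sub_cancel_left, h.inv]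
    rw [e2]; exact hx 3

/-- six cheap formulas -/
def form (k : Fin 6) (y s : G) : G := ![s, -s, y + s, y - s, -y, 2 * y] k

omit [Fintype G] in
theorem Sys.six (h : Sys φ σ) (k0 : ∀ z : G, 2 * z = 0 → z = 0) {d : G}
    (h1 : ¬ ∃ k, φ d = form k d (σ d)) (h2 : ¬ ∃ k, φ (φ d) = form k (φ d) (σ (φ d))) :
    #({d, -d, φ d, -φ d, φ d - d, d - φ d} : Finset G) = 6 := by
  have a0 : d ≠ 0 := fun e => h1 ⟨4, by simp [e, form, h.zero]⟩
  have a1 : φ d ≠ d := h.ne d a0
  have a2 : φ d ≠ 0 := fun e => a0 (h.pinj (e.trans h.zero.symm))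
  have a3 : φ d ≠ -d := fun e => h1 ⟨4, e⟩
  have a4 : φ d ≠ 2 * d := fun e => h1 ⟨5, e⟩
  have a5 : d ≠ 2 * φ d := fun e => h2 ⟨5, (h.inv d).trans e⟩
  generalize φ d = p at *
  rw [card_insert_of_notMem, card_insert_of_notMem, card_insert_of_notMem, card_insert_of_notMem,
    card_pair]
  · exact fun e => a1 (sub_eq_zero.1 (k0 _ (by linear_combination e)))
  all_goals simp only [mem_insert, mem_singleton, not_or]
  · exact ⟨fun e => a5 (by linear_combination e), fun e => a0 (by linear_combination -e)⟩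
  · exact ⟨fun e => a2 (k0 _ (by linear_combination e)), fun e => a0 (by linear_combination e),
      fun e => a5 (by linear_combination -e)⟩
  · exact ⟨fun e => a3 e.symm, fun e => a1 (by linear_combination e),
      fun e => a2 (by linear_combination -e), fun e => a4 (by linear_combination e)⟩
  · exact ⟨fun e => a0 (k0 _ (by linear_combination e)), a1.symm,
      fun e => a3 (by linear_combination e), fun e => a4 (by linear_combination -e),
      fun e => a2 (by linear_combination e)⟩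

omit [Fintype G] in
theorem Sys.weight (h : Sys φ σ) (k0 : ∀ z : G, 2 * z = 0 → z = 0) {O : Finset G} {d : G}
    (hd : d ∈ O) (c1 : ∀ y ∈ O, -y ∈ O) (c2 : ∀ y ∈ O, φ y ∈ O) (c3 : ∀ y ∈ O, σ y ∈ O)
    (hc : ∀ y ∈ O, ¬ ∃ k, φ y = form k y (σ y)) :
    42 ≤ ∑ y ∈ O, if σ y = y then 7 else 6 := by
  by_cases h7 : 7 ≤ #O
  · have := card_nsmul_le_sum O (fun y => if σ y = y then 7 else 6) 6
      (fun y _ => by split_ifs <;> omega)
    rw [smul_eq_mul] at this
    omega
  have hs : ∀ y ∈ O, ({y, -y, φ y, -φ y, φ y - y, y - φ y} : Finset G) = O ∧ #O = 6 := by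
    intro y hy
    have h1 : ({y, -y, φ y, -φ y, φ y - y, y - φ y} : Finset G) ⊆ O := by
      have h2 : φ y - y ∈ O := h.neg y ▸ c2 _ (c1 _ hy)
      have h3 := c1 _ h2
      rw [neg_sub] at h3
      simp only [insert_subset_iff, singleton_subset_iff]
      exact ⟨hy, c1 _ hy, c2 _ hy, c1 _ (c2 _ hy), h2, h3⟩
    have h2 := h.six k0 (hc y hy) (hc _ (c2 y hy))
    have h3 := card_le_card h1
    exact ⟨eq_of_subset_of_card_le h1 (by omega), by omega⟩
  have hp : ∀ y ∈ O, σ y = y ∨ σ y = -y := by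
    intro y hy
    have h1 := c3 y hy
    rw [← (hs y hy).1] at h1
    simp only [mem_insert, mem_singleton] at h1
    rcases h1 with e | e | e | e | e | e
    · exact Or.inl e
    · exact Or.inr e
    · exact absurd ⟨0, e.symm⟩ (hc y hy)
    · exact absurd ⟨1, show φ y = -σ y by rw [e, neg_neg]⟩ (hc y hy)
    · exact absurd ⟨2, show φ y = y + σ y by rw [e]; ring⟩ (hc y hy)
    · exact absurd ⟨3, show φ y = y - σ y by rw [e]; ring⟩ (hc y hy)
  have hf : ∀ y ∈ O, σ y = y := by
    intro y hy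
    refine (hp y hy).elim id fun e => ?_
    have h1 := h.comm y
    rw [e, h.neg] at h1
    rcases hp _ (c2 y hy) with k | k
    · have : y = 0 := by linear_combination h1 - k
      rw [this, h.s0]
    · exact absurd ⟨5, (h.inv y).trans (show y = 2 * φ y by linear_combination h1 - k)⟩
        (hc _ (c2 y hy))
  rw [sum_congr rfl fun y hy => if_pos (hf y hy), sum_const, (hs d hd).2]
  rfl

theorem Sys.reps (h : Sys φ σ) (k0 : ∀ z : G, 2 * z = 0 → z = 0) :
    ∃ T : Finset G, 84 * #T ≤ 13 * Fintype.card G ∧ ∀ A : G → Prop, (∀ d, A d ↔ A (-d)) →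
      (∀ d, A d ↔ A (φ d)) → (∀ d, A d ↔ A (σ d)) → (∀ d ∈ T, A d) →
      (∀ d, (∃ k, φ d = form k d (σ d)) → A d) → ∀ d, A d := by
  classical
  let r : G → G → Prop := fun d e => e = -d ∨ e = φ d ∨ e = σ d
  let ρ : G → G := fun d => (Quot.mk r d).out
  have hρ : ∀ d, Quot.mk r (ρ d) = Quot.mk r d := fun d => Quot.out_eq _
  have hr : ∀ d e, r d e → ρ e = ρ d := fun d e k => congrArg Quot.out (Quot.sound k).symm
  let T : Finset G := univ.filter fun d => ρ d = d ∧ ∀ y, ρ y = d → ¬ ∃ k, φ y = form k y (σ y)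
  refine ⟨T, ?_, fun A a1 a2 a3 a4 a5 d => ?_⟩
  · have h1 : ∑ d ∈ T, ∑ y ∈ univ.filter (fun y => ρ y = d), (if σ y = y then 7 else 6) ≤
        ∑ y, if σ y = y then 7 else 6 := by
      rw [← sum_fiberwise univ ρ fun y => if σ y = y then 7 else 6]
      exact sum_le_sum_of_subset (subset_univ _)
    have h2 := card_nsmul_le_sum T (fun d => ∑ y ∈ univ.filter (fun y => ρ y = d),
      (if σ y = y then 7 else 6)) 42 fun d hd => by
        obtain ⟨k1, k2⟩ := (mem_filter.1 hd).2
        refine h.weight k0 (d := d) (mem_filter.2 ⟨mem_univ _, k1⟩) ?_ ?_ ?_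
          fun y hy => k2 y (mem_filter.1 hy).2
        · exact fun y hy => mem_filter.2 ⟨mem_univ _,
            (hr _ _ (Or.inl rfl)).trans (mem_filter.1 hy).2⟩
        · exact fun y hy => mem_filter.2 ⟨mem_univ _,
            (hr _ _ (Or.inr (Or.inl rfl))).trans (mem_filter.1 hy).2⟩
        · exact fun y hy => mem_filter.2 ⟨mem_univ _,
            (hr _ _ (Or.inr (Or.inr rfl))).trans (mem_filter.1 hy).2⟩
    rw [sum_ite, sum_const, sum_const] at h1
    have h3 := card_filter_add_card_filter_not (s := (univ : Finset G)) fun x => σ x = x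
    have h4 := h.fix
    rw [card_univ] at h3
    simp only [smul_eq_mul] at h1 h2
    omega
  · have key : ∀ d e, Quot.mk r d = Quot.mk r e → (A d ↔ A e) := by
      intro d e k
      have k' := Quot.eqvGen_exact k
      clear k
      induction k' with
      | rel d e k => rcases k with rfl | rfl | rfl; exacts [a1 d, a2 d, a3 d]
      | refl => rfl
      | symm d e k ih => exact ih.symm
      | trans d e f k k' ih ih' => exact ih.trans ih'
    by_cases k : ∀ y, ρ y = ρ d → ¬ ∃ k, φ y = form k y (σ y)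
    · exact (key _ _ (hρ d)).1 (a4 _ (mem_filter.2 ⟨mem_univ _, congrArg Quot.out (hρ d), k⟩))
    · simp only [not_forall, not_not] at k
      obtain ⟨y, k1, k2⟩ := k
      exact (key y d (by rw [← hρ y, k1, hρ])).1 (a5 y k2)

/-- a description from which `φ` can be read off -/
structure Code (φ σ : G → G) (c : (G → Option G) × (G → Option G) × (G → Option (Fin 6))) :
    Prop where
  sys : Sys φ σ
  s1 : ∀ x, c.1 x ≠ none → c.1 x = some (σ x)
  s2 : ∀ x, c.2.1 x ≠ none → c.2.1 x = some (φ x)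
  s3 : ∀ y k, c.2.2 y = some k → φ y = form k y (σ y)
  c1 : ∀ z, ∃ x y, c.1 x ≠ none ∧ c.1 y ≠ none ∧ c.2.1 (y - x) ≠ none ∧
    c.2.1 (σ y - σ x) ≠ none ∧ z = x + φ (y - x)
  c2 : ∀ A : G → Prop, (∀ d, A d ↔ A (-d)) → (∀ d, A d ↔ A (φ d)) → (∀ d, A d ↔ A (σ d)) →
    (∀ d, c.2.1 d ≠ none → A d) → (∀ d, c.2.2 d ≠ none → A d) → ∀ d, A d

omit [Fintype G] [DecidableEq G] in
theorem Code.uniq {φ' σ' : G → G} {c : (G → Option G) × (G → Option G) × (G → Option (Fin 6))}
    (h : Code φ σ c) (h' : Code φ' σ' c) : φ = φ' := by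
  have e1 : ∀ x, c.1 x ≠ none → σ x = σ' x := fun x k =>
    Option.some_injective _ ((h.s1 x k).symm.trans (h'.s1 x k))
  have e2 : ∀ x, c.2.1 x ≠ none → φ x = φ' x := fun x k =>
    Option.some_injective _ ((h.s2 x k).symm.trans (h'.s2 x k))
  obtain rfl : σ = σ' := by
    funext z
    obtain ⟨x, y, k1, k2, k3, k4, rfl⟩ := h.c1 z
    rw [h.sys.aut, e2 _ k3, h'.sys.aut, e2 _ k4, e1 x k1, e1 y k2]
  funext d
  refine h.c2 (fun d => φ d = φ' d) (fun d => ?_) (fun d => ?_) (fun d => ?_) e2 (fun d k => ?_) d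
  · rw [h.sys.neg, h'.sys.neg, sub_left_inj]
  · rw [h.sys.inv]
    exact ⟨fun k => by rw [k, h'.sys.inv], fun k => h'.sys.pinj (by rw [← k, h'.sys.inv])⟩
  · rw [← h.sys.comm, ← h'.sys.comm, h.sys.inj.eq_iff]
  · obtain ⟨k, hk⟩ := Option.ne_none_iff_exists'.1 k
    rw [h.s3 d k hk, h'.s3 d k hk]

open Classical in
theorem count (k0 : ∀ z : G, 2 * z = 0 → z = 0) (hc : Fintype.card G * 2016 *
      (2016 ^ 4 - 1) ^ Fintype.card G < 2016 ^ (4 * Fintype.card G)) :
    ∃ k, 63 * k ≤ 10 * Fintype.card G ∧ #(univ.filter fun φ : G → G => ∃ σ, Sys φ σ) ≤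
      28 ^ Fintype.card G * Fintype.card G ^ k := by
  set n := Fintype.card G with hn
  have n0 : 0 < n := Fintype.card_pos
  refine ⟨n / 504 + (n / 504 + 13 * n / 84), by omega, ?_⟩
  have h1 : #(PF G (n / 504) ×ˢ PF G (n / 504 + 13 * n / 84) ×ˢ
      (univ : Finset (G → Option (Fin 6)))) ≤ 28 ^ n * n ^ (n / 504 + (n / 504 + 13 * n / 84)) := by
    rw [card_product, card_product, card_univ, Fintype.card_fun, Fintype.card_option,
      Fintype.card_fin]
    refine (Nat.mul_le_mul (card_PF n0 _) (Nat.mul_le_mul_right _ (card_PF n0 _))).trans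
      (le_of_eq ?_)
    rw [← hn, show (28 : ℕ) = 2 * 2 * (6 + 1) from rfl, mul_pow, mul_pow, pow_add]
    ring
  refine le_trans (card_le_card_of_forall_subsingleton (fun φ c => ∃ σ, Code φ σ c) ?_ ?_) h1
  · intro φ hφ
    obtain ⟨σ, h⟩ := (mem_filter.1 hφ).2
    obtain ⟨R, r1, r2⟩ := h.cover 2016 (by norm_num) hc
    obtain ⟨T, t1, t2⟩ := h.reps k0
    have nn : ∀ (S : Finset G) (f : G → G) x, x ∈ S → res S f x ≠ none := fun S f x k => by
      simp [res, k]
    have sp : ∀ (S : Finset G) (f : G → G) x, res S f x ≠ none → res S f x = some (f x) :=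
      fun S f x k => by
        by_cases j : x ∈ S <;> simp [res, j] at k ⊢
    refine ⟨(res R σ, res (R ∪ T) φ, fun y => if k : ∃ k, φ y = form k y (σ y) then
      some k.choose else none), ?_, σ, h, sp _ _, sp _ _, fun y k e => ?_, fun z => ?_,
      fun A a1 a2 a3 a4 a5 => t2 A a1 a2 a3 (fun d k => a4 d (nn _ _ _ (mem_union_right _ k)))
        fun d k => a5 d (by simp only [dif_pos k]; exact Option.some_ne_none _)⟩
    · exact mem_product.2 ⟨res_mem (by omega) _, mem_product.2
        ⟨res_mem ((card_union_le _ _).trans (Nat.add_le_add (by omega) (by omega))) _,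
          mem_univ _⟩⟩
    · by_cases j : ∃ k, φ y = form k y (σ y)
      · simp only [dif_pos j, Option.some.injEq] at e
        exact e ▸ j.choose_spec
      · simp [dif_neg j] at e
    · obtain ⟨x, hx, y, hy, k1, k2, k3⟩ := r2 z
      exact ⟨x, y, nn _ _ _ hx, nn _ _ _ hy, nn _ _ _ (mem_union_left _ k1),
        nn _ _ _ (mem_union_left _ k2), k3⟩
  · rintro c - φ ⟨-, σ, h⟩ φ' ⟨-, σ', h'⟩
    exact h.uniq h'

end CSTSR
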