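import Pool.Agent.P.MP_72c5f4_co.A.Final
import Pool.Agent.P.MP_72c5f4_co.R.Defs
import Pool.Agent.P.MP_72c5f4_co.R.Enc

/-! Almost all cyclic Steiner triple systems have no automorphisms besides the translations. -/

namespace CSTSR

open Finset CSTS Filter Topology

variable {n : ℕ}

theorem exists_sys [NeZero n] {B : Finset (Finset (ZMod n))} (hB : IsCyc B) (hR : ¬ Rigid B) :
    ∃ φ σ : ZMod n → ZMod n, Sys φ σ ∧ blocks (fun d e => d ≠ 0 ∧ e = φ d) = B := by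
  classical
  obtain ⟨R, h, rfl⟩ := hB.rel
  simp only [Rigid, not_forall, not_exists] at hR
  obtain ⟨π, hπ, hm⟩ := hR
  let φ : ZMod n → ZMod n := fun d => if k : d = 0 then 0 else (h.ex d k).choose
  have p0 : φ 0 = 0 := dif_pos rfl
  have p1 : ∀ d, d ≠ 0 → R d (φ d) := fun d k => by
    simp only [φ, dif_neg k]
    exact (h.ex d k).choose_spec
  have p2 : ∀ d e, R d e → φ d = e := fun d e k => h.uniq _ _ _ (p1 d (h.ne _ _ k).1) k
  refine ⟨φ, fun x => π x - π 0, ⟨fun d => ?_, fun d => ?_, p0, fun d k => ?_, ?_, sub_self _,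
    fun x y => ?_, ?_⟩, ?_⟩
  · by_cases k : d = 0
    · rw [k, p0, p0]
    · exact p2 _ _ (h.symm _ _ (p1 d k))
  · by_cases k : d = 0
    · rw [k, neg_zero, sub_zero]
    · exact p2 _ _ (h.shift _ _ (p1 d k))
  · exact (h.ne _ _ (p1 d k)).2.2.symm
  · exact fun x y e => π.injective (sub_left_injective e)
  · by_cases k : x = y
    · simp [k, p0]
    have k1 := p1 _ (sub_ne_zero.2 (Ne.symm k))
    obtain ⟨-, k2, k3⟩ := h.ne _ _ k1
    have k4 := (hπ _).1 (mem_blocks.2 ⟨x, _, _, k1, rfl⟩)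
    rw [add_sub_cancel] at k4
    obtain ⟨e, k5, k6⟩ := rebase2 h k4 (x := π x) (y := π y) (by simp) (by simp)
      (π.injective.ne k)
    have k7 : π (x + φ (y - x)) ∈ ({π x, π y, π x + e} : Finset (ZMod n)) := by
      rw [← k6]; simp
    simp only [mem_insert, mem_singleton, EmbeddingLike.apply_eq_iff_eq] at k7
    rcases k7 with j | j | j
    · exact absurd (by linear_combination j) k2
    · exact absurd (by linear_combination -j) k3
    · rw [j, sub_sub_sub_cancel_right, p2 _ _ k5]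
      ring
  · obtain ⟨z, hz⟩ := hm (π 0)
    exact ⟨z, fun e => hz (by linear_combination e)⟩
  · refine congrArg blocks ?_
    funext d e
    exact propext ⟨fun k => k.2 ▸ p1 d k.1, fun k => ⟨(h.ne _ _ k).1, (p2 _ _ k).symm⟩⟩

open Classical in
theorem exc_le [NeZero n] : Nat.card {B : Finset (Finset (ZMod n)) // IsCyc B ∧ ¬ Rigid B} ≤
    #(univ.filter fun φ : ZMod n → ZMod n => ∃ σ, Sys φ σ) := by
  rw [Nat.card_eq_fintype_card, Fintype.card_subtype]
  refine le_trans (card_le_card fun B hB => ?_)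
    (card_image_le (f := fun φ : ZMod n → ZMod n => blocks (fun d e => d ≠ 0 ∧ e = φ d)))
  obtain ⟨φ, σ, h1, h2⟩ := exists_sys (mem_filter.1 hB).2.1 (mem_filter.1 hB).2.2
  exact mem_image.2 ⟨φ, mem_filter.2 ⟨mem_univ _, σ, h1⟩, h2⟩

theorem rigid_le [NeZero n] : numRigid n ≤ numCyc n := by
  refine Nat.card_le_card_of_injective
    (Quot.map (fun B => ⟨B.1, B.2.1⟩) fun _ _ h => h) fun p q h => ?_
  obtain ⟨B, rfl⟩ := Quot.mk_surjective p
  obtain ⟨C, rfl⟩ := Quot.mk_surjective q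
  have hr : Equivalence fun B C : {B : Finset (Finset (ZMod n)) // IsCyc B} => Iso B.1 C.1 :=
    ⟨fun B => (iso_equiv n).refl _, fun h => (iso_equiv n).symm h,
      fun h h' => (iso_equiv n).trans h h'⟩
  exact Quot.sound (hr.eqvGen_iff.1 (Quot.eqvGen_exact h))

theorem cyc_le_add [NeZero n] : numCyc n ≤ numRigid n +
    Nat.card {B : Finset (Finset (ZMod n)) // IsCyc B ∧ ¬ Rigid B} := by
  rw [numRigid, ← Nat.card_sum]
  refine Nat.card_le_card_of_surjective (Sum.elim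
    (Quot.map (fun B => ⟨B.1, B.2.1⟩) fun _ _ h => h) fun B => Quot.mk _ ⟨B.1, B.2.1⟩) fun q => ?_
  obtain ⟨B, rfl⟩ := Quot.mk_surjective q
  by_cases h : Rigid B.1
  · exact ⟨Sum.inl (Quot.mk _ ⟨B.1, B.2, h⟩), rfl⟩
  · exact ⟨Sum.inr ⟨B.1, B.2, h⟩, rfl⟩

theorem ev_colour : ∀ᶠ n : ℕ in atTop, n * 2016 * (2016 ^ 4 - 1) ^ n < 2016 ^ (4 * n) := by
  have h := tendsto_self_mul_const_pow_of_lt_one (r := (2016 ^ 4 - 1) / 2016 ^ 4)
    (by norm_num) (by norm_num)
  filter_upwards [h.eventually (gt_mem_nhds (show (0 : ℝ) < 1 / 2016 by norm_num))] with n hn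
  rw [div_pow, ← mul_div_assoc, div_lt_div_iff₀ (by positivity) (by norm_num), one_mul,
    ← pow_mul] at hn
  have e : ((2016 ^ 4 - 1 : ℕ) : ℝ) = 2016 ^ 4 - 1 := by norm_num
  rw [← e, mul_right_comm] at hn
  exact_mod_cast hn

theorem numeric {E k n : ℕ} {C : ℝ} (hn : 56 ^ 126 * 18 ^ 21 ≤ n) (hk : 63 * k ≤ 10 * n)
    (hE : E ≤ 28 ^ n * n ^ k) (hC : ((n : ℝ) / 18) ^ ((n : ℝ) / 6) ≤ C) : (E : ℝ) * 2 ^ n ≤ C := by
  have n1 : 1 ≤ n := le_trans (Nat.one_le_iff_ne_zero.2 (by positivity)) hn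
  have h1 : (E * 2 ^ n) ^ 126 * 18 ^ (21 * n) ≤ n ^ (21 * n) := by
    calc (E * 2 ^ n) ^ 126 * 18 ^ (21 * n)
        ≤ (28 ^ n * n ^ k * 2 ^ n) ^ 126 * 18 ^ (21 * n) := by gcongr
      _ = (56 ^ 126 * 18 ^ 21) ^ n * n ^ (126 * k) := by
        rw [mul_right_comm (28 ^ n), ← mul_pow 28, show 28 * 2 = 56 from rfl, mul_pow, mul_pow (56 ^ 126), ← pow_mul,
          ← pow_mul, ← pow_mul, ← pow_mul, mul_comm n 126, mul_comm k 126, mul_right_comm]
      _ ≤ n ^ n * n ^ (20 * n) :=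
        Nat.mul_le_mul (Nat.pow_le_pow_left hn n) (Nat.pow_le_pow_right n1 (by omega))
      _ = n ^ (21 * n) := by rw [← pow_add]; congr 1; ring
  refine le_trans (le_of_pow_le_pow_left₀ (show 126 ≠ 0 by norm_num) (by positivity) ?_) hC
  rw [← Real.rpow_natCast (((n : ℝ) / 18) ^ _), ← Real.rpow_mul (by positivity),
    show (n : ℝ) / 6 * (126 : ℕ) = (21 * n : ℕ) by push_cast; ring, Real.rpow_natCast, div_pow,
    le_div_iff₀ (by positivity)]
  exact_mod_cast h1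

theorem limit : Tendsto (fun n : ℕ => (numRigid n : ℝ) / numCyc n)
    (atTop ⊓ 𝓟 {n : ℕ | n % 6 = 1 ∨ n % 6 = 3}) (𝓝 1) := by
  have hlim : Tendsto (fun n : ℕ => 1 - (1 / 2 : ℝ) ^ n)
      (atTop ⊓ 𝓟 {n : ℕ | n % 6 = 1 ∨ n % 6 = 3}) (𝓝 1) := by
    have := (tendsto_pow_atTop_nhds_zero_of_lt_one (r := (1 / 2 : ℝ)) (by norm_num)
      (by norm_num)).const_sub 1
    rw [sub_zero] at this
    exact this.mono_left inf_le_left
  obtain ⟨N, hN⟩ := CSTS.main (1 / 2) (by norm_num) (by norm_num)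
  have key : ∀ᶠ n : ℕ in atTop ⊓ 𝓟 {n : ℕ | n % 6 = 1 ∨ n % 6 = 3},
      1 - (1 / 2 : ℝ) ^ n ≤ (numRigid n : ℝ) / numCyc n ∧ (numRigid n : ℝ) / numCyc n ≤ 1 := by
    rw [eventually_inf_principal]
    filter_upwards [ev_colour, eventually_ge_atTop N, eventually_ge_atTop (56 ^ 126 * 18 ^ 21)]
      with n h1 h2 h3 h6
    have h6' : n % 6 = 1 ∨ n % 6 = 3 := h6
    have : NeZero n := ⟨by omega⟩
    have n0 : (0 : ℝ) < n := by exact_mod_cast (show 0 < n by omega)
    obtain ⟨⟨hf, hh⟩, -⟩ := zmod_facts n h6'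
    obtain ⟨k, k1, k2⟩ := count (G := ZMod n)
      (fun z h => by linear_combination hf * h - z * hh) (by rwa [ZMod.card])
    rw [ZMod.card] at k1 k2
    have h4 : ((n : ℝ) / 18) ^ ((n : ℝ) / 6) ≤ numCyc n := by
      refine le_trans (Real.rpow_le_rpow (by positivity) ?_ (by positivity)) (hN n h2 h6').1
      rw [div_le_div_iff₀ (by norm_num) (Real.exp_pos 2), show (2 : ℝ) = 1 + 1 by norm_num,
        Real.exp_add]
      have a := Real.exp_one_lt_d9
      have b := Real.exp_pos 1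
      have c : Real.exp 1 * Real.exp 1 ≤ 9 := by nlinarith
      nlinarith
    have h5 := numeric h3 k1 (exc_le.trans k2) h4
    have c0 : (0 : ℝ) < numCyc n := lt_of_lt_of_le (by positivity) h4
    have c1 : (numRigid n : ℝ) ≤ numCyc n := by exact_mod_cast rigid_le
    have c2 : (numCyc n : ℝ) ≤ numRigid n +
        Nat.card {B : Finset (Finset (ZMod n)) // IsCyc B ∧ ¬ Rigid B} := by
      exact_mod_cast cyc_le_add
    refine ⟨?_, (div_le_one c0).2 c1⟩
    rw [le_div_iff₀ c0, one_div, inv_pow]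
    rw [← le_div_iff₀ (by positivity), div_eq_mul_inv] at h5
    linarith
  exact tendsto_of_tendsto_of_tendsto_of_le_of_le' hlim tendsto_const_nhds
    (key.mono fun _ h => h.1) (key.mono fun _ h => h.2)

end CSTSR
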